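import Mathlib

/-! Definitions for MP_fa3ce5_an (the distance of two sections of a set of the product). -/
set_option autoImplicit false
open MeasureTheory Set Real

namespace Pool.Agent.Work.MP_fa3ce5_an.H9

variable {α : Type} [MeasurableSpace α]

/-- The distance `μ (E_x △ E_x')` of the sections of `E` over the two coordinates of
`z = (x, x')`. -/
noncomputable def sectionDist (μ : Measure α) (E : Set (α × α)) (z : α × α) : ℝ :=
  (μ (symmDiff {y | (z.1, y) ∈ E} {y | (z.2, y) ∈ E})).toReal

end Pool.Agent.Work.MP_fa3ce5_an.H9
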