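import Mathlib

/-! Shannon entropy of functions with finitely many values. -/
set_option autoImplicit false
open MeasureTheory Set Real

namespace Pool.Agent.Work.MP_fa3ce5_an.H9

/-- the entropy of a function with finitely many values -/
noncomputable def H {Ω S : Type} [MeasurableSpace Ω] [Fintype S] (μ : Measure Ω) (X : Ω → S) : ℝ :=
  ∑ s, negMulLog (μ.real (X ⁻¹' {s}))

/-- measurability for functions with finitely many values -/
def MF {Ω S : Type} [MeasurableSpace Ω] (X : Ω → S) : Prop := ∀ s, MeasurableSet (X ⁻¹' {s})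

theorem MF.pre {Ω S : Type} [MeasurableSpace Ω] [Finite S] {X : Ω → S} (h : MF X) (A : Set S) :
    MeasurableSet (X ⁻¹' A) := by
  have : X ⁻¹' A = ⋃ s ∈ A, X ⁻¹' {s} := by
    ext ω; simp
  rw [this]
  exact MeasurableSet.biUnion (Set.to_countable A) fun s _ => h s

theorem MF.prod {Ω S S' : Type} [MeasurableSpace Ω] {X : Ω → S} {Y : Ω → S'} (h : MF X)
    (h' : MF Y) : MF (fun ω => (X ω, Y ω)) := by
  intro s
  have : (fun ω => (X ω, Y ω)) ⁻¹' {s} = X ⁻¹' {s.1} ∩ Y ⁻¹' {s.2} := by
    ext ω; simp [Prod.ext_iff]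
  rw [this]
  exact (h _).inter (h' _)

theorem MF.comp {Ω S R : Type} [MeasurableSpace Ω] [Finite S] {X : Ω → S} (h : MF X) (g : S → R) :
    MF (g ∘ X) := by
  intro r
  rw [preimage_comp]
  exact h.pre _

theorem MF.pi {Ω S : Type} [MeasurableSpace Ω] {n : ℕ} {X : Fin n → Ω → S} (h : ∀ i, MF (X i)) :
    MF (fun ω i => X i ω) := by
  intro v
  have : (fun ω i => X i ω) ⁻¹' {v} = ⋂ i, X i ⁻¹' {v i} := by
    ext ω; simp [funext_iff]
  rw [this]
  exact MeasurableSet.iInter fun i => h i _

section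
variable {Ω : Type} [MeasurableSpace Ω] (μ : Measure Ω) [IsProbabilityMeasure μ]

theorem real_fiber {S R : Type} [Fintype S] [DecidableEq R] {X : Ω → S} (h : MF X) (g : S → R)
    (r : R) : μ.real ((g ∘ X) ⁻¹' {r}) = ∑ s ∈ Finset.univ.filter (fun s => g s = r),
      μ.real (X ⁻¹' {s}) := by
  have h1 : (g ∘ X) ⁻¹' {r} = ⋃ s ∈ Finset.univ.filter (fun s => g s = r), X ⁻¹' {s} := by
    ext ω; simp
  rw [h1, measureReal_biUnion_finset]
  · intro s _ t _ hst
    refine Set.disjoint_left.2 fun ω h2 h3 => hst ?_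
    simp only [mem_preimage, mem_singleton_iff] at h2 h3
    rw [← h2, ← h3]
  · intro s _
    exact h s

theorem sum_real {S : Type} [Fintype S] {X : Ω → S} (h : MF X) :
    ∑ s, μ.real (X ⁻¹' {s}) = 1 := by
  have h1 := real_fiber μ h (fun _ : S => ()) ()
  simp only [Finset.filter_true] at h1
  rw [← h1]
  have : ((fun _ : S => ()) ∘ X) ⁻¹' {()} = univ := by ext; simp
  rw [this]
  simp

theorem negMulLog_sum_le {ι : Type} (A : Finset ι) (p : ι → ℝ) (hp : ∀ i ∈ A, 0 ≤ p i) :
    negMulLog (∑ i ∈ A, p i) ≤ ∑ i ∈ A, negMulLog (p i) := by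
  have key : ∀ i ∈ A, p i * (-log (∑ j ∈ A, p j)) ≤ negMulLog (p i) := by
    intro i hi
    rcases (hp i hi).eq_or_lt with h | h
    · rw [← h]; simp
    · have h1 : p i ≤ ∑ j ∈ A, p j := Finset.single_le_sum hp hi
      have h2 := Real.log_le_log h h1
      unfold negMulLog
      nlinarith
  have h3 := Finset.sum_le_sum key
  rw [← Finset.sum_mul] at h3
  unfold negMulLog at h3 ⊢
  linarith

theorem H_comp_le {S R : Type} [Fintype S] [Fintype R] {X : Ω → S} (h : MF X) (g : S → R) :
    H μ (g ∘ X) ≤ H μ X := by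
  classical
  unfold H
  calc ∑ r, negMulLog (μ.real ((g ∘ X) ⁻¹' {r}))
      ≤ ∑ r, ∑ s ∈ Finset.univ.filter (fun s => g s = r), negMulLog (μ.real (X ⁻¹' {s})) := by
        refine Finset.sum_le_sum fun r _ => ?_
        rw [real_fiber μ h g r]
        exact negMulLog_sum_le _ _ fun s _ => measureReal_nonneg
    _ = ∑ s, negMulLog (μ.real (X ⁻¹' {s})) := by
        exact Finset.sum_fiberwise Finset.univ g _

theorem H_prod_le {S S' : Type} [Fintype S] [Fintype S'] {X : Ω → S} {Y : Ω → S'} (h : MF X)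
    (h' : MF Y) : H μ (fun ω => (X ω, Y ω)) ≤ H μ X + H μ Y := by
  classical
  have hXY := h.prod h'
  set p : S → S' → ℝ := fun s t => μ.real ((fun ω => (X ω, Y ω)) ⁻¹' {(s, t)}) with hp
  set a : S → ℝ := fun s => μ.real (X ⁻¹' {s}) with ha
  set b : S' → ℝ := fun t => μ.real (Y ⁻¹' {t}) with hb
  have hp0 : ∀ s t, 0 ≤ p s t := fun s t => measureReal_nonneg
  have ha0 : ∀ s, 0 ≤ a s := fun s => measureReal_nonneg
  have hrow : ∀ s, ∑ t, p s t = a s := by
    intro s
    have h1 := real_fiber μ hXY (fun z : S × S' => z.1) s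
    have h2 : ((fun z : S × S' => z.1) ∘ fun ω => (X ω, Y ω)) = X := rfl
    rw [h2] at h1
    rw [ha]
    simp only
    rw [h1, Finset.sum_filter, Fintype.sum_prod_type, Finset.sum_comm]
    simp [hp]
  have hcol : ∀ t, ∑ s, p s t = b t := by
    intro t
    have h1 := real_fiber μ hXY (fun z : S × S' => z.2) t
    have h2 : ((fun z : S × S' => z.2) ∘ fun ω => (X ω, Y ω)) = Y := rfl
    rw [h2] at h1
    rw [hb]
    simp only
    rw [h1, Finset.sum_filter, Fintype.sum_prod_type]
    simp [hp]
  have hple : ∀ s t, p s t ≤ a s := by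
    intro s t
    rw [← hrow s]
    exact Finset.single_le_sum (fun t _ => hp0 s t) (Finset.mem_univ t)
  set q : S → S' → ℝ := fun s t => p s t / a s with hq
  have hq0 : ∀ s t, 0 ≤ q s t := fun s t => div_nonneg (hp0 s t) (ha0 s)
  have hpq : ∀ s t, p s t = a s * q s t := by
    intro s t
    rcases (ha0 s).eq_or_lt with h0 | h0
    · have h1 := hple s t
      rw [← h0] at h1 ⊢
      rw [zero_mul]
      exact le_antisymm h1 (hp0 s t)
    · rw [hq]; field_simp
  have hqs : ∀ s, (∑ t, q s t) * negMulLog (a s) = negMulLog (a s) := by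
    intro s
    rcases (ha0 s).eq_or_lt with h0 | h0
    · rw [← h0]; simp
    · have : ∑ t, q s t = 1 := by
        rw [hq]
        simp only
        rw [← Finset.sum_div, hrow s, div_self h0.ne']
      rw [this, one_mul]
  have hexp : H μ (fun ω => (X ω, Y ω)) = ∑ s, negMulLog (a s) +
      ∑ t, ∑ s, a s * negMulLog (q s t) := by
    unfold H
    rw [Fintype.sum_prod_type]
    have h1 : ∀ s t, negMulLog (μ.real ((fun ω => (X ω, Y ω)) ⁻¹' {(s, t)})) =
        q s t * negMulLog (a s) + a s * negMulLog (q s t) := by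
      intro s t
      show negMulLog (p s t) = _
      rw [hpq s t, negMulLog_mul]
    simp only [h1, Finset.sum_add_distrib, ← Finset.sum_mul, hqs]
    rw [Finset.sum_comm (f := fun s t => a s * negMulLog (q s t))]
  rw [hexp]
  have hsum1 : ∑ s, a s = 1 := sum_real μ h
  have hJ : ∀ t, ∑ s, a s * negMulLog (q s t) ≤ negMulLog (b t) := by
    intro t
    have h1 := Real.concaveOn_negMulLog.le_map_sum (t := Finset.univ) (w := a)
      (p := fun s => q s t) (fun s _ => ha0 s) hsum1 (fun s _ => hq0 s t)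
    simp only [smul_eq_mul] at h1
    have h2 : ∑ s, a s * q s t = b t := by
      rw [← hcol t]
      exact Finset.sum_congr rfl fun s _ => (hpq s t).symm
    rwa [h2] at h1
  have h3 := Finset.sum_le_sum (s := Finset.univ) fun t (_ : t ∈ Finset.univ) => hJ t
  unfold H
  show _ ≤ ∑ s, negMulLog (a s) + ∑ t, negMulLog (b t)
  linarith

theorem H_pi_le {S : Type} [Fintype S] (n : ℕ) (X : Fin n → Ω → S) (h : ∀ i, MF (X i)) :
    H μ (fun ω i => X i ω) ≤ ∑ i, H μ (X i) := by
  induction n with
  | zero =>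
    unfold H
    simp only [Finset.univ_eq_empty, Finset.sum_empty, Finset.univ_unique, Finset.sum_singleton]
    have : (fun ω i => X i ω) ⁻¹' {(default : Fin 0 → S)} = univ := by
      ext ω
      simp only [mem_preimage, mem_singleton_iff, mem_univ, iff_true]
      exact Subsingleton.elim _ _
    rw [this]
    simp
  | succ n ih =>
    have h1 := ih (fun i => X i.succ) (fun i => h _)
    have h2 := H_prod_le μ (h 0) (MF.pi fun i : Fin n => h i.succ)
    have h3 := H_comp_le μ ((h 0).prod (MF.pi fun i : Fin n => h i.succ))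
      (fun z : S × (Fin n → S) => (Fin.cons z.1 z.2 : Fin (n + 1) → S))
    have h4 : ((fun z : S × (Fin n → S) => (Fin.cons z.1 z.2 : Fin (n + 1) → S)) ∘
        fun ω => (X 0 ω, fun i : Fin n => X i.succ ω)) = fun ω i => X i ω := by
      funext ω i
      refine Fin.cases ?_ (fun j => ?_) i <;> simp
    rw [h4] at h3
    rw [Fin.sum_univ_succ]
    linarith

theorem H_nonneg {S : Type} [Fintype S] (X : Ω → S) : 0 ≤ H μ X :=
  Finset.sum_nonneg fun _ _ => negMulLog_nonneg measureReal_nonneg measureReal_le_one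

end

/-- `H` is invariant under measure preserving maps -/
theorem H_mp {Ω Ω' S : Type} [MeasurableSpace Ω] [MeasurableSpace Ω'] [Fintype S] {μ : Measure Ω}
    {μ' : Measure Ω'} {φ : Ω → Ω'} (hφ : MeasurePreserving φ μ μ') {X : Ω' → S} (h : MF X) :
    H μ (X ∘ φ) = H μ' X := by
  unfold H
  refine Finset.sum_congr rfl fun s _ => ?_
  rw [preimage_comp, hφ.measureReal_preimage (h s).nullMeasurableSet]

/-- the elementary inequality for two values -/
theorem two_values {a b : ℝ} (ha : 0 ≤ a) (hb : 0 ≤ b) :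
    2 * log 2 * min a b ≤ negMulLog a + negMulLog b - negMulLog (a + b) := by
  wlog hab : a ≤ b generalizing a b
  · have := this hb ha (le_of_not_ge hab)
    rw [min_comm, add_comm a b]
    linarith
  rcases (add_nonneg ha hb).eq_or_lt with h0 | h0
  · have h1 : a = 0 := by linarith
    have h2 : b = 0 := by linarith
    subst h1; subst h2
    simp
  · set s := a + b with hs
    set θ := a / s with hθ
    have hθ0 : 0 ≤ θ := div_nonneg ha h0.le
    have hθ2 : θ ≤ 1 / 2 := by
      rw [hθ, div_le_div_iff₀ h0 (by norm_num)]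
      linarith
    have ea : a = s * θ := by rw [hθ]; field_simp
    have eb : b = s * (1 - θ) := by rw [mul_sub, ← ea, hs]; ring
    have h1 := Real.strictConcave_binEntropy.concaveOn.2
      (show (0 : ℝ) ∈ Icc (0 : ℝ) 1 by constructor <;> norm_num)
      (show (1 / 2 : ℝ) ∈ Icc (0 : ℝ) 1 by constructor <;> norm_num)
      (show 0 ≤ 1 - 2 * θ by linarith) (show 0 ≤ 2 * θ by linarith) (by ring)
    simp only [smul_eq_mul, mul_zero, zero_add, binEntropy_zero] at h1
    have e2 : 2 * θ * (1 / 2) = θ := by ring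
    rw [e2] at h1
    have e3 : binEntropy (1 / 2) = log 2 := by
      rw [one_div]; exact binEntropy_two_inv
    rw [e3] at h1
    have h2 : negMulLog a + negMulLog b - negMulLog s = s * binEntropy θ := by
      rw [ea, eb, negMulLog_mul, negMulLog_mul, binEntropy_eq_negMulLog_add_negMulLog_one_sub]
      ring
    rw [h2, min_eq_left hab]
    have e4 : 2 * log 2 * a = s * (2 * θ * log 2) := by rw [ea]; ring
    rw [e4]
    exact mul_le_mul_of_nonneg_left h1 h0.le

end Pool.Agent.Work.MP_fa3ce5_an.H9
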