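import Pool.Agent.Work.MP_fa3ce5_an.H9.Main
import Pool.Agent.Work.MP_fa3ce5_an.H9.Defs

/-! The theorem. -/
set_option autoImplicit false
open MeasureTheory Set Real ProbabilityTheory Filter Topology

namespace Pool.Agent.Work.MP_fa3ce5_an.H9


section
variable {α : Type} [MeasurableSpace α] {μ : Measure α} [IsProbabilityMeasure μ] {T : α → α}

theorem FL_of {F : MeasurableSpace (α × α)} {E : Set (α × α)}
    (hF : ∀ s, MeasurableSet[F] s → @MeasurableSet (α × α) Prod.instMeasurableSpace s)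
    (hinv : ∀ s, MeasurableSet[F] s → MeasurableSet[F] (Prod.map T T ⁻¹' s))
    (hind : ∀ G, MeasurableSet[F] G → ∀ A : Set α, MeasurableSet A →
      (@Measure.prod _ _ _ _ μ μ) (G ∩ Prod.fst ⁻¹' A) =
      (@Measure.prod _ _ _ _ μ μ) G * (@Measure.prod _ _ _ _ μ μ) (Prod.fst ⁻¹' A))
    (hE : MeasurableSet[F] E) : FL μ T E := by
  intro K N
  rw [ae_all_iff]
  intro u
  rw [ae_all_iff]
  intro b
  have h1 : MeasurableSet[F] ((fun ω => (Nm (Prod.map T T) E K ω, nm (Prod.map T T) E N ω)) ⁻¹'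
      {(u, b)}) :=
    @MF.prod (α × α) _ _ F _ _ (@MF_Nm (α × α) F (Prod.map T T) E hinv hE K)
      (@MF_nm (α × α) F (Prod.map T T) E hinv hE N) (u, b)
  have h2 := law (hF _ h1) (hind _ h1)
  filter_upwards [h2] with x hx
  rw [← hx]
  congr 1
  ext y
  simp [Sec]

theorem H_nam_eq (k : ℕ) (f : α → Fin k) (n : ℕ) :
    H μ (nam T f n) = ∑ v : Fin n → Fin k,
      Real.negMulLog ((μ {x | ∀ i : Fin n, f (T^[(i : ℕ)] x) = v i}).toReal) := by
  unfold H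
  refine Finset.sum_congr rfl fun v _ => ?_
  congr 2
  ext x
  simp [nam, funext_iff]

theorem finite_values {ι : Type} [Finite ι] (φ : ι → ℝ) (h0 : ∀ i, 0 ≤ φ i) :
    ∃ δ : ℝ, 0 < δ ∧ ∀ i, φ i = 0 ∨ δ ≤ φ i := by
  by_cases h : ∃ i, φ i ≠ 0
  · have hfin : (Set.range φ ∩ Ioi 0).Finite := (Set.finite_range φ).inter_of_left _
    have hne : (Set.range φ ∩ Ioi 0).Nonempty := by
      obtain ⟨i, hi⟩ := h
      exact ⟨φ i, ⟨i, rfl⟩, lt_of_le_of_ne (h0 i) (Ne.symm hi)⟩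
    obtain ⟨δ, hδ, hmin⟩ := hfin.exists_minimal hne
    refine ⟨δ, hδ.2, fun i => ?_⟩
    rcases (h0 i).eq_or_lt with h1 | h1
    · exact Or.inl h1.symm
    · right
      rcases le_total δ (φ i) with h2 | h2
      · exact h2
      · exact hmin ⟨⟨i, rfl⟩, h1⟩ h2
  · push Not at h
    exact ⟨1, one_pos, fun i => Or.inl (h i)⟩

theorem sep_of_rect {E : Set (α × α)} {m : ℕ} {A B : Fin m → Set α}
    (hA : ∀ i, MeasurableSet (A i)) (hB : ∀ i, MeasurableSet (B i)) (hE : MeasurableSet E)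
    (h : (μ.prod μ) (symmDiff E (⋃ i, A i ×ˢ B i)) = 0) :
    ∃ δ : ℝ, 0 < δ ∧ ∀ᵐ z ∂(μ.prod μ), Dd μ E z = 0 ∨ δ ≤ Dd μ E z := by
  classical
  set E' : Set (α × α) := ⋃ i, A i ×ˢ B i with hE'
  have hE'm : MeasurableSet E' := MeasurableSet.iUnion fun i => (hA i).prod (hB i)
  obtain ⟨δ, hδ, hval⟩ := finite_values (ι := (Fin m → Bool) × (Fin m → Bool))
    (fun s => μ.real (symmDiff (⋃ i, if s.1 i = true then B i else ∅)
      (⋃ i, if s.2 i = true then B i else ∅))) (fun _ => measureReal_nonneg)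
  refine ⟨δ, hδ, ?_⟩
  have hsec : ∀ x, Sec E' x = ⋃ i, if decide (x ∈ A i) = true then B i else ∅ := by
    intro x
    ext y
    simp only [Sec, hE', mem_ofPred_eq, mem_iUnion, mem_prod, decide_eq_true_eq]
    refine exists_congr fun i => ?_
    by_cases hx : x ∈ A i <;> simp [hx]
  have hae : ∀ᵐ x ∂μ, Sec E x =ᵐ[μ] Sec E' x := by
    have h1 := h
    rw [Measure.prod_apply (hE.symmDiff hE'm),
      lintegral_eq_zero_iff (measurable_measure_prodMk_left (hE.symmDiff hE'm))] at h1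
    filter_upwards [h1] with x hx
    have h2 : Prod.mk x ⁻¹' (symmDiff E E') = symmDiff (Sec E x) (Sec E' x) := by
      ext y; simp [Sec, mem_symmDiff]
    rw [h2] at hx
    exact measure_symmDiff_eq_zero_iff.1 hx
  have h1 : ∀ᵐ z ∂(μ.prod μ), Sec E z.1 =ᵐ[μ] Sec E' z.1 :=
    (measurePreserving_fst (μ := μ) (ν := μ)).quasiMeasurePreserving.ae hae
  have h2 : ∀ᵐ z ∂(μ.prod μ), Sec E z.2 =ᵐ[μ] Sec E' z.2 :=
    (measurePreserving_snd (μ := μ) (ν := μ)).quasiMeasurePreserving.ae hae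
  filter_upwards [h1, h2] with z hz1 hz2
  have h3 : Dd μ E z = μ.real (symmDiff (Sec E' z.1) (Sec E' z.2)) :=
    measureReal_congr (hz1.symmDiff hz2)
  have h4 := hval (fun i => decide (z.1 ∈ A i), fun i => decide (z.2 ∈ A i))
  simp only at h4
  rw [h3, hsec, hsec]
  exact h4

end

/-- **Theorem.** -/
theorem main (α : Type) [mα : MeasurableSpace α] [StandardBorelSpace α]
    (μ : Measure α) [IsProbabilityMeasure μ] (T : α ≃ᵐ α)
    (hT : MeasurePreserving (⇑T) μ μ)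
    (herg : @Ergodic _ Prod.instMeasurableSpace (Prod.map ⇑T ⇑T) (@Measure.prod _ _ _ _ μ μ))
    (F : MeasurableSpace (α × α))
    (hF : F ≤ (Prod.instMeasurableSpace : MeasurableSpace (α × α)))
    (hinv : ∀ s : Set (α × α), MeasurableSet[F] s → MeasurableSet[F] (Prod.map ⇑T ⇑T ⁻¹' s))
    (hind : @Indep (α × α) F (MeasurableSpace.comap Prod.fst mα) Prod.instMeasurableSpace
      (@Measure.prod _ _ _ _ μ μ))
    (E : Set (α × α)) (hE : MeasurableSet[F] E)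
    (hnB : ¬ ∃ B : Set α, MeasurableSet B ∧
        (@Measure.prod _ _ _ _ μ μ) (symmDiff E (univ ×ˢ B)) = 0)
    (δ : ℝ) (ε : ℕ → ℝ) (hδ : 0 < δ) (hε0 : ∀ n, 0 ≤ ε n) (hε : Summable ε)
    (hexp : ∀ᵐ z ∂(@Measure.prod _ _ _ _ μ μ), ∀ n : ℕ,
          (∀ j ≤ 2 * n, sectionDist μ E ((Prod.map ⇑T ⇑T)^[j] z) < δ) →
          sectionDist μ E ((Prod.map ⇑T ⇑T)^[n] z) ≤ ε n)
    (r : ℕ) (c : ℝ) (hc : c < (δ - 2 * ∑' i, ε (i + r)) * log 2 / (r + 1)) :
    ∃ (k : ℕ) (f : α → Fin k), Measurable f ∧ ∀ n : ℕ,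
      c * (n : ℝ) ≤ ∑ v : Fin n → Fin k,
        Real.negMulLog ((μ {x | ∀ i : Fin n, f ((⇑T)^[(i : ℕ)] x) = v i}).toReal) := by
  have hE' : @MeasurableSet (α × α) Prod.instMeasurableSpace E := hF _ hE
  have hFL : FL μ (⇑T) E := by
    refine FL_of (F := F) hF hinv ?_ hE
    intro G hG A hA
    exact (Indep_iff _ _ _).1 hind G (Prod.fst ⁻¹' A) hG ⟨A, hA, rfl⟩
  have hnot : ¬ ∀ᵐ z ∂(@Measure.prod _ _ _ _ μ μ), Dd μ E z = 0 := fun h =>
    hnB (ae_eq_of_Dd hE' h)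
  obtain ⟨k, f, hf, h⟩ := principle hT hE' hFL r
    (fun K => expansive hT herg hE' hδ hε0 hε hexp hnot r K) hc
  refine ⟨k, f, hf, fun n => ?_⟩
  rw [← H_nam_eq]
  exact h n

section
variable {α : Type} [MeasurableSpace α] {μ : Measure α} [IsProbabilityMeasure μ] {T : α → α}

theorem expansive_of_sep {E : Set (α × α)} (hT : MeasurePreserving T μ μ) {δ : ℝ}
    (h : ∀ᵐ z ∂(μ.prod μ), Dd μ E z = 0 ∨ δ ≤ Dd μ E z) :
    ∀ᵐ z ∂(μ.prod μ), ∀ n : ℕ,
      (∀ j ≤ 2 * n, Dd μ E ((Prod.map T T)^[j] z) < δ) →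
      Dd μ E ((Prod.map T T)^[n] z) ≤ 0 := by
  rw [ae_all_iff]
  intro n
  filter_upwards [((hT.prod hT).iterate n).quasiMeasurePreserving.ae h] with z hz hj
  rcases hz with h1 | h1
  · exact h1.le
  · exact absurd (hj n (by omega)) (not_lt.2 h1)

theorem not_snd (F : MeasurableSpace (α × α))
    (hind2 : @Indep (α × α) F (MeasurableSpace.comap Prod.snd inferInstance)
      Prod.instMeasurableSpace (@Measure.prod _ _ _ _ μ μ)) (E : Set (α × α))
    (hE : MeasurableSet[F] E) (h0 : 0 < (@Measure.prod _ _ _ _ μ μ) E)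
    (h1 : (@Measure.prod _ _ _ _ μ μ) E < 1) :
    ¬ ∃ B : Set α, MeasurableSet B ∧
        (@Measure.prod _ _ _ _ μ μ) (symmDiff E (univ ×ˢ B)) = 0 := by
  rintro ⟨B, hB, hEB⟩
  set P := @Measure.prod _ _ _ _ μ μ with hP
  have hEB' : E =ᵐ[P] (univ ×ˢ B : Set (α × α)) := measure_symmDiff_eq_zero_iff.1 hEB
  have h2 := (Indep_iff _ _ _).1 hind2 E (Prod.snd ⁻¹' B) hE ⟨B, hB, rfl⟩
  have h3 : (univ ×ˢ B : Set (α × α)) = Prod.snd ⁻¹' B := by ext; simp
  have h4 : P (E ∩ Prod.snd ⁻¹' B) = P E := by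
    refine measure_congr ?_
    rw [h3] at hEB'
    have h5 := hEB'.inter (EventuallyEq.refl (ae P) (Prod.snd ⁻¹' B))
    rw [inter_self] at h5
    exact h5.trans hEB'.symm
  have h6 : P (Prod.snd ⁻¹' B) = P E := by
    rw [← h3]; exact (measure_congr hEB').symm
  rw [h4, h6] at h2
  have h7 : P E ≠ ⊤ := measure_ne_top _ _
  have h8 : P E * 1 = P E * P E := by rw [mul_one]; exact h2
  have h9 : (1 : ENNReal) = P E := (ENNReal.mul_right_inj h0.ne' h7).1 h8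
  exact h1.ne h9.symm

end

end Pool.Agent.Work.MP_fa3ce5_an.H9
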