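import Pool.Agent.Work.MP_fa3ce5_an.H9.Ent

/-! The increment of the entropy. -/
set_option autoImplicit false
open MeasureTheory Set Real ProbabilityTheory

namespace Pool.Agent.Work.MP_fa3ce5_an.H9

variable {α : Type} [MeasurableSpace α]

/-- the section of `E` at `x` -/
def Sec (E : Set (α × α)) (x : α) : Set α := {y | (x, y) ∈ E}

/-- the distance of two sections -/
noncomputable def Dd (μ : Measure α) (E : Set (α × α)) (z : α × α) : ℝ :=
  μ.real (symmDiff (Sec E z.1) (Sec E z.2))

open Classical in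
/-- the name -/
noncomputable def nm {Ω : Type} (S : Ω → Ω) (E : Set Ω) (n : ℕ) (ω : Ω) : Bool :=
  decide (S^[n] ω ∈ E)

/-- the names of length `N` -/
noncomputable def Nm {Ω : Type} (S : Ω → Ω) (E : Set Ω) (N : ℕ) (ω : Ω) : Fin N → Bool :=
  fun i => nm S E i ω

theorem MF_nm {Ω : Type} {m : MeasurableSpace Ω} {S : Ω → Ω} {E : Set Ω}
    (hS : ∀ s, MeasurableSet s → MeasurableSet (S ⁻¹' s)) (hE : MeasurableSet E) (n : ℕ) :
    MF (nm S E n) := by
  have hn : ∀ k, MeasurableSet (S^[k] ⁻¹' E) := by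
    intro k
    induction k with
    | zero => simpa using hE
    | succ k ih =>
      rw [Function.iterate_succ, preimage_comp]
      exact hS _ ih
  intro b
  have : nm S E n ⁻¹' {b} = if b = true then S^[n] ⁻¹' E else (S^[n] ⁻¹' E)ᶜ := by
    ext ω
    cases b <;> simp [nm]
  rw [this]
  split_ifs
  · exact hn n
  · exact (hn n).compl

theorem MF_Nm {Ω : Type} {m : MeasurableSpace Ω} {S : Ω → Ω} {E : Set Ω}
    (hS : ∀ s, MeasurableSet s → MeasurableSet (S ⁻¹' s)) (hE : MeasurableSet E) (N : ℕ) :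
    MF (Nm S E N) :=
  MF.pi fun i => MF_nm hS hE i

section
variable {μ : Measure α} [IsProbabilityMeasure μ] {T : α → α}

theorem law {G : Set (α × α)} (hG' : MeasurableSet G)
    (hind : ∀ A, MeasurableSet A → (μ.prod μ) (G ∩ Prod.fst ⁻¹' A) =
      (μ.prod μ) G * (μ.prod μ) (Prod.fst ⁻¹' A)) :
    ∀ᵐ x ∂μ, μ.real (Sec G x) = (μ.prod μ).real G := by
  have h1 : (fun x => μ (Prod.mk x ⁻¹' G)) =ᵐ[μ] fun _ => (μ.prod μ) G := by
    refine ae_eq_of_forall_setLIntegral_eq_of_sigmaFinite (measurable_measure_prodMk_left hG')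
      measurable_const ?_
    intro A hA _
    rw [setLIntegral_const]
    have h2 := hind A hA
    have h3 : (μ.prod μ) (Prod.fst ⁻¹' A) = μ A :=
      measurePreserving_fst.measure_preimage hA.nullMeasurableSet
    rw [h3] at h2
    rw [← h2, Measure.prod_apply (hG'.inter (measurable_fst hA)), ← lintegral_indicator hA]
    refine lintegral_congr fun x => ?_
    by_cases hx : x ∈ A
    · rw [indicator_of_mem hx]
      congr 1
      ext y
      simp [hx]
    · rw [indicator_of_notMem hx]
      have : Prod.mk x ⁻¹' (G ∩ Prod.fst ⁻¹' A) = ∅ := by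
        ext y; simp [hx]
      rw [this, measure_empty]
  filter_upwards [h1] with x hx
  unfold Measure.real
  congr 1

/-- the law of the names of the fibres -/
def FL (μ : Measure α) (T : α → α) (E : Set (α × α)) : Prop := ∀ K N : ℕ, ∀ᵐ x ∂μ,
  ∀ (u : Fin K → Bool) (b : Bool),
    μ.real {y | Nm (Prod.map T T) E K (x, y) = u ∧ nm (Prod.map T T) E N (x, y) = b} =
    (μ.prod μ).real ((fun ω => (Nm (Prod.map T T) E K ω, nm (Prod.map T T) E N ω)) ⁻¹' {(u, b)})

theorem iter_mem {E : Set (α × α)} (n : ℕ) (x y : α) :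
    (Prod.map T T)^[n] (x, y) ∈ E ↔ T^[n] y ∈ Sec E (T^[n] x) := by
  rw [Prod.map_iterate]
  rfl

theorem nm_ne {E : Set (α × α)} (n : ℕ) (x x' : α) :
    {y | nm (Prod.map T T) E n (x, y) ≠ nm (Prod.map T T) E n (x', y)} =
      T^[n] ⁻¹' (symmDiff (Sec E (T^[n] x)) (Sec E (T^[n] x'))) := by
  ext y
  simp only [mem_ofPred_eq, nm, ne_eq, decide_eq_decide, iter_mem, mem_preimage, mem_symmDiff]
  tauto

theorem meas_sec {E : Set (α × α)} (hE : MeasurableSet E) (x : α) : MeasurableSet (Sec E x) :=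
  measurable_prodMk_left hE

theorem nm_ne_measure (hT : MeasurePreserving T μ μ) {E : Set (α × α)} (hE : MeasurableSet E)
    (n : ℕ) (x x' : α) :
    μ.real {y | nm (Prod.map T T) E n (x, y) ≠ nm (Prod.map T T) E n (x', y)} =
      Dd μ E ((Prod.map T T)^[n] (x, x')) := by
  rw [nm_ne, (hT.iterate n).measureReal_preimage
    ((meas_sec hE _).symmDiff (meas_sec hE _)).nullMeasurableSet, Prod.map_iterate]
  rfl

/-- the key estimate -/
theorem inc (hT : MeasurePreserving T μ μ) {E : Set (α × α)} (hE' : MeasurableSet E)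
    (hFL : FL μ T E) {s δ : ℝ} (K N : ℕ) (hKN : K ≤ N)
    (hpair : 0 < (μ.prod μ) {z | ∑ n ∈ Finset.range K, Dd μ E ((Prod.map T T)^[n] z) ≤ s ∧
      δ ≤ Dd μ E ((Prod.map T T)^[N] z)}) :
    H (μ.prod μ) (Nm (Prod.map T T) E K) + (δ - s) * log 2 ≤
      H (μ.prod μ) (Nm (Prod.map T T) E (N + 1)) := by
  classical
  have hlaw := hFL K N
  set S := Prod.map T T with hS
  set P := μ.prod μ with hP
  have hSm : Measurable S := hT.measurable.prodMap hT.measurable
  have hUm : MF (fun ω => (Nm S E K ω, nm S E N ω)) :=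
    MF.prod (MF_Nm (fun s hs => hSm hs) hE' K) (MF_nm (fun s hs => hSm hs) hE' N)
  set ν : (Fin K → Bool) → Bool → ℝ := fun u b =>
    P.real ((fun ω => (Nm S E K ω, nm S E N ω)) ⁻¹' {(u, b)}) with hν
  have hν0 : ∀ u b, 0 ≤ ν u b := fun u b => measureReal_nonneg
  set m : ℝ := ∑ u, min (ν u true) (ν u false) with hm
  have hδm : δ - s ≤ 2 * m := by
    have h1 : ∀ᵐ z ∂P, (∀ u b, μ.real {y | Nm S E K (z.1, y) = u ∧ nm S E N (z.1, y) = b} = ν u b) ∧
        (∀ u b, μ.real {y | Nm S E K (z.2, y) = u ∧ nm S E N (z.2, y) = b} = ν u b) := by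
      have h2 : ∀ᵐ z ∂P, ∀ u b,
          μ.real {y | Nm S E K (z.1, y) = u ∧ nm S E N (z.1, y) = b} = ν u b :=
        (measurePreserving_fst (μ := μ) (ν := μ)).quasiMeasurePreserving.ae hlaw
      have h3 : ∀ᵐ z ∂P, ∀ u b,
          μ.real {y | Nm S E K (z.2, y) = u ∧ nm S E N (z.2, y) = b} = ν u b :=
        (measurePreserving_snd (μ := μ) (ν := μ)).quasiMeasurePreserving.ae hlaw
      filter_upwards [h2, h3] with z a b using ⟨a, b⟩
    obtain ⟨z, hz1, hz2⟩ : ∃ z : α × α, z ∈ {z | ∑ n ∈ Finset.range K, Dd μ E (S^[n] z) ≤ s ∧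
        δ ≤ Dd μ E (S^[N] z)} ∧ ((∀ u b, μ.real {y | Nm S E K (z.1, y) = u ∧
          nm S E N (z.1, y) = b} = ν u b) ∧
        (∀ u b, μ.real {y | Nm S E K (z.2, y) = u ∧ nm S E N (z.2, y) = b} = ν u b)) := by
      by_contra hcon
      push Not at hcon
      have h4 : P {z | ∑ n ∈ Finset.range K, Dd μ E (S^[n] z) ≤ s ∧ δ ≤ Dd μ E (S^[N] z)} = 0 := by
        refine measure_mono_null ?_ (ae_iff.1 h1)
        intro z hz
        simp only [mem_ofPred_eq]
        rintro ⟨a, b⟩
        obtain ⟨u, c, hne⟩ := hcon z hz a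
        exact hne (b u c)
      exact hpair.ne' h4
    obtain ⟨x, x'⟩ := z
    obtain ⟨hclose, hfar⟩ := hz1
    obtain ⟨hx, hx'⟩ := hz2
    simp only at hx hx'
    set g : (Fin K → Bool) → Bool := fun u => decide (ν u false ≤ ν u true) with hg
    -- the probability of a wrong guess
    have guess : ∀ x, (∀ u b, μ.real {y | Nm S E K (x, y) = u ∧ nm S E N (x, y) = b} = ν u b) →
        μ.real {y | nm S E N (x, y) ≠ g (Nm S E K (x, y))} = m := by
      intro x hx
      have e1 : {y | nm S E N (x, y) ≠ g (Nm S E K (x, y))} =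
          ⋃ u ∈ (Finset.univ : Finset (Fin K → Bool)),
            {y | Nm S E K (x, y) = u ∧ nm S E N (x, y) = !(g u)} := by
        ext y
        simp only [mem_ofPred_eq, Finset.mem_univ, iUnion_true, mem_iUnion]
        constructor
        · intro h
          exact ⟨_, rfl, by cases h5 : nm S E N (x, y) <;> cases h6 : g (Nm S E K (x, y)) <;> simp_all⟩
        · rintro ⟨u, rfl, h⟩
          rw [h]
          cases g (Nm S E K (x, y)) <;> simp
      rw [e1, measureReal_biUnion_finset]
      · rw [hm]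
        refine Finset.sum_congr rfl fun u _ => ?_
        rw [hx u (!(g u)), hg]
        simp only
        by_cases h : ν u false ≤ ν u true
        · simp [h]
        · simp [h, (not_le.1 h).le]
      · intro u _ v _ huv
        refine Set.disjoint_left.2 fun y h2 h3 => huv ?_
        rw [← h2.1, ← h3.1]
      · intro u _
        have h7 : MeasurableSet ((fun ω => (Nm S E K ω, nm S E N ω)) ⁻¹' {(u, !(g u))}) := hUm _
        have h8 := (measurable_prodMk_left (x := x)) h7
        convert h8 using 1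
        ext y
        simp
    have hsub : {y | nm S E N (x, y) ≠ nm S E N (x', y)} ⊆
        ({y | nm S E N (x, y) ≠ g (Nm S E K (x, y))} ∪
          {y | nm S E N (x', y) ≠ g (Nm S E K (x', y))}) ∪
        ⋃ n ∈ Finset.range K, {y | nm S E n (x, y) ≠ nm S E n (x', y)} := by
      intro y hy
      by_contra hcon
      simp only [mem_union, mem_ofPred_eq, mem_iUnion, Finset.mem_range, not_or, not_exists,
        ne_eq, not_not] at hcon hy
      obtain ⟨⟨h1, h2⟩, h3⟩ := hcon
      have h4 : Nm S E K (x, y) = Nm S E K (x', y) := by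
        funext i
        exact h3 i i.2
      rw [h4] at h1
      exact hy (h1.trans h2.symm)
    have hmeas := measureReal_mono (μ := μ) hsub
    have hu1 := measureReal_union_le (μ := μ)
      ({y | nm S E N (x, y) ≠ g (Nm S E K (x, y))} ∪
          {y | nm S E N (x', y) ≠ g (Nm S E K (x', y))})
      (⋃ n ∈ Finset.range K, {y | nm S E n (x, y) ≠ nm S E n (x', y)})
    have hu2 := measureReal_union_le (μ := μ) {y | nm S E N (x, y) ≠ g (Nm S E K (x, y))}
      {y | nm S E N (x', y) ≠ g (Nm S E K (x', y))}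
    have hu3 := measureReal_biUnion_finset_le (μ := μ) (Finset.range K)
      (fun n => {y | nm S E n (x, y) ≠ nm S E n (x', y)})
    have hu4 : ∑ n ∈ Finset.range K, μ.real {y | nm S E n (x, y) ≠ nm S E n (x', y)} ≤ s := by
      refine le_trans (le_of_eq ?_) hclose
      refine Finset.sum_congr rfl fun n _ => ?_
      rw [hS, nm_ne_measure hT hE']
    have hN : δ ≤ μ.real {y | nm S E N (x, y) ≠ nm S E N (x', y)} := by
      rw [hS, nm_ne_measure hT hE']
      exact hfar
    have g1 := guess x hx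
    have g2 := guess x' hx'
    linarith
  -- the entropy
  have hlog : 0 < log 2 := Real.log_pos (by norm_num)
  have hA : H P (fun ω => (Nm S E K ω, nm S E N ω)) ≤ H P (Nm S E (N + 1)) := by
    have h1 := H_comp_le P (MF_Nm (fun s hs => hSm hs) hE' (N + 1) :
      MF (Nm S E (N + 1))) (fun v => (fun i : Fin K => v ⟨i, by omega⟩, v (Fin.last N)))
    exact h1
  have hB : H P (Nm S E K) + 2 * log 2 * m ≤ H P (fun ω => (Nm S E K ω, nm S E N ω)) := by
    unfold H
    rw [Fintype.sum_prod_type, hm, Finset.mul_sum, ← Finset.sum_add_distrib]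
    refine Finset.sum_le_sum fun u _ => ?_
    have h1 := two_values (hν0 u true) (hν0 u false)
    have h2 : P.real (Nm S E K ⁻¹' {u}) = ν u true + ν u false := by
      have h3 := real_fiber P hUm (fun z : (Fin K → Bool) × Bool => z.1) u
      have h4 : ((fun z : (Fin K → Bool) × Bool => z.1) ∘ fun ω => (Nm S E K ω, nm S E N ω)) =
          Nm S E K := rfl
      rw [h4, Finset.sum_filter, Fintype.sum_prod_type, Finset.sum_comm] at h3
      rw [h3]
      simp [hν]
    rw [h2]
    simp only [Fintype.sum_bool]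
    show negMulLog (ν u true + ν u false) + 2 * log 2 * min (ν u true) (ν u false) ≤
      negMulLog (ν u true) + negMulLog (ν u false)
    linarith
  nlinarith

end

end Pool.Agent.Work.MP_fa3ce5_an.H9
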