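import Pool.Agent.Work.MP_fa3ce5_an.H9.Inc

/-! Transfer to partitions of `α`, separated sections. -/
set_option autoImplicit false
open MeasureTheory Set Real ProbabilityTheory Filter Topology

namespace Pool.Agent.Work.MP_fa3ce5_an.H9

variable {α : Type} [MeasurableSpace α]

section
variable {μ : Measure α} [IsProbabilityMeasure μ] {T : α → α}

theorem approx [StandardBorelSpace α] {E : Set (α × α)} (hE : MeasurableSet E) {η : ℝ}
    (hη : 0 < η) : ∃ (C : ℕ → Set α) (p : α → ℕ), (∀ i, MeasurableSet (C i)) ∧ Measurable p ∧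
      ∀ x, μ.real (symmDiff (Sec E x) (C (p x))) < η := by
  classical
  obtain ⟨𝒜, h𝒜c, h𝒜⟩ := exists_countable_measureDense (μ := μ)
  obtain ⟨C, hC⟩ := h𝒜c.exists_eq_range h𝒜.nonempty
  have hCm : ∀ i, MeasurableSet (C i) := fun i => h𝒜.measurable _ (by rw [hC]; exact ⟨i, rfl⟩)
  have hex : ∀ x, ∃ i, μ.real (symmDiff (Sec E x) (C i)) < η := by
    intro x
    obtain ⟨t, ht, h1⟩ := h𝒜.approx (Sec E x) (meas_sec hE x) (measure_ne_top _ _) η hη
    rw [hC] at ht
    obtain ⟨i, rfl⟩ := ht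
    exact ⟨i, ENNReal.toReal_lt_of_lt_ofReal h1⟩
  refine ⟨C, fun x => Nat.find (hex x), hCm, ?_, fun x => Nat.find_spec (hex x)⟩
  refine measurable_find _ fun i => ?_
  have h2 : MeasurableSet (symmDiff E (univ ×ˢ C i)) := hE.symmDiff (MeasurableSet.univ.prod (hCm i))
  have h3 := (measurable_measure_prodMk_left (ν := μ) h2).ennreal_toReal
  have h4 : ∀ x, Prod.mk x ⁻¹' (symmDiff E (univ ×ˢ C i)) = symmDiff (Sec E x) (C i) := by
    intro x
    ext y
    simp [Sec, mem_symmDiff]
  simp only [h4] at h3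
  exact measurableSet_lt h3 measurable_const

theorem approx2 [StandardBorelSpace α] {E : Set (α × α)} (hE : MeasurableSet E) {η : ℝ}
    (hη : 0 < η) : ∃ (K : ℕ) (C : ℕ → Set α) (p : α → ℕ), (∀ i, MeasurableSet (C i)) ∧
      Measurable p ∧
      (μ.prod μ).real (symmDiff E {ω | p ω.1 < K ∧ ω.2 ∈ C (p ω.1)}) ≤ 2 * η := by
  obtain ⟨C, p, hC, hp, h⟩ := approx (μ := μ) hE hη
  have hmono : Monotone (fun K : ℕ => {x | p x < K}) := by
    intro a b hab x hx
    exact lt_of_lt_of_le hx hab
  have h1 := tendsto_measure_iUnion_atTop (μ := μ) hmono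
  have h2 : ⋃ K : ℕ, {x | p x < K} = univ := by
    ext x
    simp only [mem_iUnion, mem_ofPred_eq, mem_univ, iff_true]
    exact ⟨p x + 1, Nat.lt_succ_self _⟩
  rw [h2, measure_univ] at h1
  have h3 : Tendsto (fun K : ℕ => μ.real {x | p x < K}) atTop (𝓝 1) := by
    have := (ENNReal.tendsto_toReal ENNReal.one_ne_top).comp h1
    simpa [Measure.real, Function.comp_def] using this
  obtain ⟨K, hK⟩ := (h3.eventually (lt_mem_nhds (show 1 - η < 1 by linarith))).exists
  have hKm : MeasurableSet {x | p x < K} := hp (measurableSet_Iio (a := K))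
  have hK2 : μ.real {x | p x < K}ᶜ < η := by
    rw [probReal_compl_eq_one_sub hKm]
    linarith
  refine ⟨K, C, p, hC, hp, ?_⟩
  set E' : Set (α × α) := {ω | p ω.1 < K ∧ ω.2 ∈ C (p ω.1)} with hE'
  have hE'm : MeasurableSet E' := by
    have : E' = ⋃ i ∈ Finset.range K, (p ⁻¹' {i}) ×ˢ C i := by
      ext ⟨x, y⟩
      simp only [hE', mem_ofPred_eq, mem_iUnion, Finset.mem_range, mem_prod, mem_preimage,
        mem_singleton_iff, exists_prop]
      constructor
      · rintro ⟨h5, h6⟩
        exact ⟨p x, h5, rfl, h6⟩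
      · rintro ⟨i, h5, rfl, h6⟩
        exact ⟨h5, h6⟩
    rw [this]
    exact Finset.measurableSet_biUnion _ fun i _ => (hp (measurableSet_singleton i)).prod (hC i)
  have h4 : (μ.prod μ) (symmDiff E E') ≤ ENNReal.ofReal η + μ {x | p x < K}ᶜ := by
    rw [Measure.prod_apply (hE.symmDiff hE'm)]
    have h5 : ∀ x, μ (Prod.mk x ⁻¹' (symmDiff E E')) ≤
        ENNReal.ofReal η + ({x | p x < K}ᶜ).indicator 1 x := by
      intro x
      by_cases hx : p x < K
      · have h6 : Prod.mk x ⁻¹' (symmDiff E E') = symmDiff (Sec E x) (C (p x)) := by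
          ext y
          simp [Sec, mem_symmDiff, hE', hx]
        rw [h6]
        refine le_trans ?_ le_self_add
        rw [← ENNReal.ofReal_toReal (measure_ne_top μ (symmDiff (Sec E x) (C (p x))))]
        exact ENNReal.ofReal_le_ofReal (h x).le
      · rw [indicator_of_mem (show x ∈ {x | p x < K}ᶜ from hx)]
        refine le_trans prob_le_one ?_
        exact le_add_self
    calc ∫⁻ x, μ (Prod.mk x ⁻¹' (symmDiff E E')) ∂μ
        ≤ ∫⁻ x, (ENNReal.ofReal η + ({x | p x < K}ᶜ).indicator 1 x) ∂μ := lintegral_mono h5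
      _ = ENNReal.ofReal η + μ {x | p x < K}ᶜ := by
        rw [lintegral_add_left measurable_const, lintegral_const, measure_univ, mul_one,
          lintegral_indicator_one hKm.compl]
  have h7 := ENNReal.toReal_mono (by finiteness) h4
  rw [ENNReal.toReal_add (by finiteness) (by finiteness), ENNReal.toReal_ofReal hη.le] at h7
  have h8 : (μ {x | p x < K}ᶜ).toReal < η := hK2
  have h9 : (μ.prod μ).real (symmDiff E E') ≤ η + (μ {x | p x < K}ᶜ).toReal := h7
  linarith

/-- names of a partition -/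
def nam {R : Type} (T : α → α) (r : α → R) (n : ℕ) (x : α) : Fin n → R := fun i => r (T^[i] x)

theorem MF_nam (hT : MeasurePreserving T μ μ) {R : Type} {r : α → R}
    (hr : MF r) (n : ℕ) : MF (nam T r n) := by
  refine MF.pi fun i => fun s => ?_
  exact (hT.measurable.iterate i) (hr s)

theorem small_entropy {ε : ℝ} (hε : 0 < ε) : ∃ η : ℝ, 0 < η ∧ ∀ t, 0 ≤ t → t ≤ 2 * η →
    binEntropy t ≤ ε := by
  have h1 : Tendsto binEntropy (𝓝 0) (𝓝 0) := by
    have := Real.binEntropy_continuous.tendsto 0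
    rwa [binEntropy_zero] at this
  have h2 := h1.eventually (gt_mem_nhds hε)
  obtain ⟨η, hη, h3⟩ := Metric.eventually_nhds_iff.1 h2
  refine ⟨η / 4, by positivity, fun t ht0 ht => (h3 ?_).le⟩
  rw [Real.dist_eq, sub_zero, abs_of_nonneg ht0]
  linarith

theorem nam_fun {R : Type} {r : α → R} {E' : Set (α × α)} (G : R → R → Bool)
    (hG : ∀ x y, ((x, y) ∈ E' ↔ G (r x) (r y) = true)) (n : ℕ) (ω : α × α) :
    (fun i => G (nam T r n ω.1 i) (nam T r n ω.2 i)) = Nm (Prod.map T T) E' n ω := by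
  classical
  funext i
  obtain ⟨x, y⟩ := ω
  have e1 : (Prod.map T T)^[(i : ℕ)] (x, y) = (T^[i] x, T^[i] y) := by
    rw [Prod.map_iterate]; rfl
  have h0 := hG (T^[i] x) (T^[i] y)
  rw [← e1] at h0
  show G (r (T^[i] x)) (r (T^[i] y)) = nm (Prod.map T T) E' i (x, y)
  unfold nm
  rcases Bool.eq_false_or_eq_true (G (r (T^[i] x)) (r (T^[i] y))) with h | h
  · rw [h]
    exact (decide_eq_true (h0.2 h)).symm
  · rw [h]
    refine (decide_eq_false fun h2 => ?_).symm
    rw [h0.1 h2] at h
    exact Bool.noConfusion h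

theorem to_fin (hT : MeasurePreserving T μ μ) {R : Type} [Fintype R] {r : α → R}
    (hr : MF r) : ∃ (k : ℕ) (f : α → Fin k), Measurable f ∧ ∀ n : ℕ,
      H μ (nam T r n) ≤ H μ (nam T f n) := by
  let e : R ≃ Fin (Fintype.card R) := Fintype.equivFin R
  have hf : MF (e ∘ r) := hr.comp e
  have hfm : Measurable (e ∘ r) := measurable_to_countable' hf
  refine ⟨Fintype.card R, e ∘ r, hfm, fun n => ?_⟩
  have hname : MF (nam T (e ∘ r) n) := by
    refine MF.pi fun i => fun s => ?_
    exact (hT.measurable.iterate i) (hf s)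
  have h1 := H_comp_le μ hname (fun v i => e.symm (v i))
  have h2 : (fun v : Fin n → Fin (Fintype.card R) => fun i => e.symm (v i)) ∘ nam T (e ∘ r) n =
      nam T r n := by
    funext x i
    simp [nam]
  rwa [h2] at h1

/-- the law of the names of length `n` of the fibres -/
theorem law_Nm (hT : MeasurePreserving T μ μ) {E : Set (α × α)} (hE : MeasurableSet E)
    (hFL : FL μ T E) (n : ℕ) : ∀ᵐ x ∂μ,
      H μ (fun y => Nm (Prod.map T T) E n (x, y)) = H (μ.prod μ) (Nm (Prod.map T T) E n) := by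
  classical
  have hSm : Measurable (Prod.map T T) := hT.measurable.prodMap hT.measurable
  have hU : MF (fun ω => (Nm (Prod.map T T) E n ω, nm (Prod.map T T) E n ω)) :=
    MF.prod (MF_Nm (fun s hs => hSm hs) hE n) (MF_nm (fun s hs => hSm hs) hE n)
  filter_upwards [hFL n n] with x hx
  unfold H
  refine Finset.sum_congr rfl fun u _ => ?_
  congr 1
  have hUx : MF (fun y => (Nm (Prod.map T T) E n (x, y), nm (Prod.map T T) E n (x, y))) := by
    intro v
    exact (measurable_prodMk_left (x := x)) (hU v)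
  have h1 := real_fiber μ hUx (fun z : (Fin n → Bool) × Bool => z.1) u
  have h2 := real_fiber (μ.prod μ) hU (fun z : (Fin n → Bool) × Bool => z.1) u
  have e1 : ((fun z : (Fin n → Bool) × Bool => z.1) ∘ fun y =>
      (Nm (Prod.map T T) E n (x, y), nm (Prod.map T T) E n (x, y))) =
      fun y => Nm (Prod.map T T) E n (x, y) := rfl
  have e2 : ((fun z : (Fin n → Bool) × Bool => z.1) ∘ fun ω =>
      (Nm (Prod.map T T) E n ω, nm (Prod.map T T) E n ω)) = Nm (Prod.map T T) E n := rfl
  rw [e1] at h1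
  rw [e2] at h2
  rw [h1, h2]
  refine Finset.sum_congr rfl fun s _ => ?_
  obtain ⟨v, c⟩ := s
  rw [← hx v c]
  congr 1
  ext y
  simp

/-- the average of the entropies of the sections of a small set -/
theorem avg_binEntropy {D : Set (α × α)} (hD : MeasurableSet D) :
    ∫ x, binEntropy (μ.real (Sec D x)) ∂μ ≤ binEntropy ((μ.prod μ).real D) := by
  have hm : Measurable fun x => μ.real (Sec D x) :=
    (measurable_measure_prodMk_left hD).ennreal_toReal
  have hmem : ∀ x, μ.real (Sec D x) ∈ Icc (0 : ℝ) 1 := fun x =>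
    ⟨measureReal_nonneg, measureReal_le_one⟩
  have hint : Integrable (fun x => μ.real (Sec D x)) μ :=
    Integrable.of_bound hm.aestronglyMeasurable 1 (ae_of_all _ fun x => by
      rw [Real.norm_eq_abs, abs_of_nonneg (hmem x).1]; exact (hmem x).2)
  have hint2 : Integrable (binEntropy ∘ fun x => μ.real (Sec D x)) μ :=
    Integrable.of_bound (Real.binEntropy_continuous.measurable.comp hm).aestronglyMeasurable
      (log 2) (ae_of_all _ fun x => by
        show |binEntropy (μ.real (Sec D x))| ≤ log 2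
        rw [abs_of_nonneg (Real.binEntropy_nonneg (hmem x).1 (hmem x).2)]
        exact Real.binEntropy_le_log_two)
  have h1 := Real.strictConcave_binEntropy.concaveOn.le_map_integral
    Real.binEntropy_continuous.continuousOn isClosed_Icc (ae_of_all μ hmem) hint hint2
  refine h1.trans (le_of_eq ?_)
  congr 1
  have h2 : (μ.prod μ).real D = (∫⁻ x, μ (Sec D x) ∂μ).toReal := by
    unfold Measure.real
    rw [Measure.prod_apply hD]
    rfl
  have h3 := integral_toReal (μ := μ) (f := fun x => μ (Sec D x))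
    (measurable_measure_prodMk_left hD).aemeasurable (ae_of_all _ fun x => measure_lt_top _ _)
  rw [h2, ← h3]
  rfl

theorem transfer [StandardBorelSpace α] (hT : MeasurePreserving T μ μ) {E : Set (α × α)}
    (hE : MeasurableSet E) (hFL : FL μ T E) {ε : ℝ} (hε : 0 < ε) :
    ∃ (k : ℕ) (f : α → Fin k), Measurable f ∧ ∀ n : ℕ,
      H (μ.prod μ) (Nm (Prod.map T T) E n) ≤ H μ (nam T f n) + n * ε := by
  classical
  obtain ⟨η, hη, hη2⟩ := small_entropy hε
  obtain ⟨K, C, p, hC, hp, hdist⟩ := approx2 (μ := μ) hE hη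
  set S := Prod.map T T with hS
  set P := μ.prod μ with hP
  have hSm : Measurable S := hT.measurable.prodMap hT.measurable
  set E' : Set (α × α) := {ω | p ω.1 < K ∧ ω.2 ∈ C (p ω.1)} with hE'
  have hE'm : MeasurableSet E' := by
    have : E' = ⋃ i ∈ Finset.range K, (p ⁻¹' {i}) ×ˢ C i := by
      ext ⟨x, y⟩
      simp only [hE', mem_ofPred_eq, mem_iUnion, Finset.mem_range, mem_prod, mem_preimage,
        mem_singleton_iff, exists_prop]
      constructor
      · rintro ⟨h5, h6⟩
        exact ⟨p x, h5, rfl, h6⟩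
      · rintro ⟨i, h5, rfl, h6⟩
        exact ⟨h5, h6⟩
    rw [this]
    exact Finset.measurableSet_biUnion _ fun i _ => (hp (measurableSet_singleton i)).prod (hC i)
  set D := symmDiff E E' with hD
  have hDm : MeasurableSet D := hE.symmDiff hE'm
  have hpre : ∀ s, MeasurableSet s → MeasurableSet (S ⁻¹' s) := fun s hs => hSm hs
  have hrm : MF (fun x => ((⟨min (p x) K, by omega⟩, fun i => decide (x ∈ C i)) :
      Fin (K + 1) × (Fin K → Bool))) := by
    refine MF.prod ?_ (MF.pi fun i => ?_)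
    · intro b
      have : (fun x => (⟨min (p x) K, by omega⟩ : Fin (K + 1))) ⁻¹' {b} =
          p ⁻¹' {j | min j K = b} := by
        ext x
        simp [Fin.ext_iff]
      rw [this]
      exact hp (MeasurableSet.of_discrete)
    · intro b
      have : (fun x => decide (x ∈ C i)) ⁻¹' {b} = if b = true then C i else (C i)ᶜ := by
        ext x; cases b <;> simp
      rw [this]
      split_ifs
      · exact hC i
      · exact (hC i).compl
  set r : α → Fin (K + 1) × (Fin K → Bool) := fun x =>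
    (⟨min (p x) K, by omega⟩, fun i => decide (x ∈ C i)) with hr
  -- the partition
  obtain ⟨k, f, hf, hfr⟩ := to_fin (μ := μ) hT hrm
  refine ⟨k, f, hf, fun n => ?_⟩
  have hsecm : ∀ (G : Set (α × α)), MeasurableSet G → ∀ x, MF (fun y => Nm S G n (x, y)) := by
    intro G hG x v
    exact (measurable_prodMk_left (x := x)) (MF_Nm hpre hG n v)
  have hsecm1 : ∀ (G : Set (α × α)), MeasurableSet G → ∀ x i, MF (fun y => nm S G i (x, y)) := by
    intro G hG x i v
    exact (measurable_prodMk_left (x := x)) (MF_nm hpre hG i v)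
  -- a good point
  have hlaw := law_Nm (μ := μ) hT hE hFL n
  have hgm : Measurable fun x => binEntropy (μ.real (Sec D x)) :=
    Real.binEntropy_continuous.measurable.comp
      (measurable_measure_prodMk_left hDm).ennreal_toReal
  have hgi : Integrable (fun x => binEntropy (μ.real (Sec D x))) μ :=
    Integrable.of_bound hgm.aestronglyMeasurable (log 2) (ae_of_all _ fun x => by
      rw [Real.norm_eq_abs, abs_of_nonneg (Real.binEntropy_nonneg measureReal_nonneg
        measureReal_le_one)]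
      exact Real.binEntropy_le_log_two)
  have hgi2 : ∀ i ∈ (Finset.univ : Finset (Fin n)),
      Integrable (fun x => binEntropy (μ.real (Sec D (T^[(i : ℕ)] x)))) μ := by
    intro i _
    exact (hT.iterate i).integrable_comp_of_integrable hgi
  obtain ⟨x, hx, hxle⟩ := exists_notMem_null_le_integral
    (integrable_finsetSum Finset.univ hgi2) (ae_iff.1 hlaw)
  have hx' : H μ (fun y => Nm S E n (x, y)) = H P (Nm S E n) := by
    by_contra h
    exact hx h
  have hle : ∑ i : Fin n, binEntropy (μ.real (Sec D (T^[(i : ℕ)] x))) ≤ n * ε := by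
    refine hxle.trans ?_
    rw [integral_finsetSum _ hgi2]
    have h1 : ∀ i ∈ (Finset.univ : Finset (Fin n)),
        ∫ x, binEntropy (μ.real (Sec D (T^[(i : ℕ)] x))) ∂μ ≤ ε := by
      intro i _
      have h2 : ∫ x, binEntropy (μ.real (Sec D (T^[(i : ℕ)] x))) ∂μ =
          ∫ x, binEntropy (μ.real (Sec D x)) ∂μ := by
        have h3 := integral_map (μ := μ) (φ := T^[(i : ℕ)])
          (hT.measurable.iterate i).aemeasurable
          (f := fun x => binEntropy (μ.real (Sec D x))) hgm.aestronglyMeasurable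
        rw [(hT.iterate i).map_eq] at h3
        exact h3.symm
      rw [h2]
      exact (avg_binEntropy hDm).trans (hη2 _ measureReal_nonneg hdist)
    have h4 := Finset.sum_le_sum h1
    simpa using h4
  -- the entropy of the names of the fibre
  have a1 : H μ (fun y => Nm S E' n (x, y)) ≤ H μ (nam T r n) := by
    have h1 := H_comp_le μ (MF_nam (T := T) hT hrm n) (fun v => fun i : Fin n =>
      if h : ((r (T^[(i : ℕ)] x)).1 : ℕ) < K then (v i).2 ⟨(r (T^[(i : ℕ)] x)).1, h⟩ else false)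
    have h2 : ((fun v => fun i : Fin n =>
        if h : ((r (T^[(i : ℕ)] x)).1 : ℕ) < K then (v i).2 ⟨(r (T^[(i : ℕ)] x)).1, h⟩
          else false) ∘ nam T r n) = fun y => Nm S E' n (x, y) := by
      funext y i
      simp only [Function.comp_apply, nam, Nm, nm, hS, Prod.map_iterate, Prod.map_apply, hE',
        mem_ofPred_eq, hr]
      by_cases h3 : p (T^[(i : ℕ)] x) < K
      · have h4 : min (p (T^[(i : ℕ)] x)) K = p (T^[(i : ℕ)] x) := min_eq_left h3.le
        simp [h3, h4]
      · have h4 : min (p (T^[(i : ℕ)] x)) K = K := min_eq_right (not_lt.1 h3)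
        simp [h3, h4]
    rwa [h2] at h1
  have a3 : H μ (fun y => Nm S D n (x, y)) ≤ n * ε := by
    have h1 := H_pi_le μ n (fun i y => nm S D i (x, y)) (fun i => hsecm1 D hDm x i)
    have h2 : ∀ i ∈ (Finset.univ : Finset (Fin n)), H μ (fun y => nm S D i (x, y)) =
        binEntropy (μ.real (Sec D (T^[(i : ℕ)] x))) := by
      intro i _
      unfold H
      rw [Fintype.sum_bool, binEntropy_eq_negMulLog_add_negMulLog_one_sub]
      have h3 : (fun y => nm S D i (x, y)) ⁻¹' {true} = T^[(i : ℕ)] ⁻¹' Sec D (T^[(i : ℕ)] x) := by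
        ext y
        show nm S D i (x, y) = true ↔ _
        unfold nm
        rw [decide_eq_true_iff, hS, iter_mem]
        rfl
      have h4 : (fun y => nm S D i (x, y)) ⁻¹' {false} =
          (T^[(i : ℕ)] ⁻¹' Sec D (T^[(i : ℕ)] x))ᶜ := by
        rw [← h3]
        ext y
        simp
      rw [h4, h3, probReal_compl_eq_one_sub ((hT.measurable.iterate i) (meas_sec hDm _)),
        (hT.iterate i).measureReal_preimage (meas_sec hDm _).nullMeasurableSet]
    rw [Finset.sum_congr rfl h2] at h1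
    exact h1.trans hle
  have a4 : H μ (fun y => Nm S E n (x, y)) ≤
      H μ (fun y => Nm S E' n (x, y)) + H μ (fun y => Nm S D n (x, y)) := by
    have h1 := H_comp_le μ ((hsecm E' hE'm x).prod (hsecm D hDm x))
      (fun z => fun i => xor (z.1 i) (z.2 i))
    have h2 : ((fun z : (Fin n → Bool) × (Fin n → Bool) => fun i => xor (z.1 i) (z.2 i)) ∘
        fun y => (Nm S E' n (x, y), Nm S D n (x, y))) = fun y => Nm S E n (x, y) := by
      funext y i
      simp only [Function.comp_apply, Nm, nm, hD, mem_symmDiff]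
      by_cases h3 : S^[i] (x, y) ∈ E <;> by_cases h4 : S^[i] (x, y) ∈ E' <;> simp [h3, h4]
    rw [h2] at h1
    exact h1.trans (H_prod_le μ (hsecm E' hE'm x) (hsecm D hDm x))
  have a5 := hfr n
  linarith

theorem H_add (hT : MeasurePreserving T μ μ) {E : Set (α × α)} (hE : MeasurableSet E)
    (a b : ℕ) : H (μ.prod μ) (Nm (Prod.map T T) E (a + b)) ≤
      H (μ.prod μ) (Nm (Prod.map T T) E a) + H (μ.prod μ) (Nm (Prod.map T T) E b) := by
  classical
  set S := Prod.map T T with hS
  set P := μ.prod μ with hP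
  have hSm : Measurable S := hT.measurable.prodMap hT.measurable
  have hSmp : MeasurePreserving S P P := hT.prod hT
  have hpre : ∀ s, MeasurableSet s → MeasurableSet (S ⁻¹' s) := fun s hs => hSm hs
  have ha := MF_Nm hpre hE a
  have hb := MF_Nm hpre hE b
  have hb' : MF (Nm S E b ∘ S^[a]) := fun v => (hSmp.iterate a).measurable (hb v)
  have h1 := H_comp_le P (ha.prod hb') (fun z : (Fin a → Bool) × (Fin b → Bool) =>
    fun i : Fin (a + b) => if h : (i : ℕ) < a then z.1 ⟨i, h⟩ else z.2 ⟨i - a, by omega⟩)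
  have h2 : ((fun z : (Fin a → Bool) × (Fin b → Bool) =>
      fun i : Fin (a + b) => if h : (i : ℕ) < a then z.1 ⟨i, h⟩ else z.2 ⟨i - a, by omega⟩) ∘
      fun ω => (Nm S E a ω, (Nm S E b ∘ S^[a]) ω)) = Nm S E (a + b) := by
    funext ω i
    simp only [Function.comp_apply, Nm]
    split_ifs with h
    · rfl
    · unfold nm
      rw [← Function.iterate_add_apply]
      have : (i : ℕ) - a + a = i := by omega
      simp only [this]
  rw [h2] at h1
  have h3 := H_prod_le P ha hb'
  rw [H_mp (hSmp.iterate a) hb] at h3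
  exact h1.trans h3

theorem H_zero {E : Set (α × α)} : H (μ.prod μ) (Nm (Prod.map T T) E 0) = 0 := by
  have h1 : ∀ v : Fin 0 → Bool, Nm (Prod.map T T) E 0 ⁻¹' {v} = univ := by
    intro v
    ext ω
    simp only [mem_preimage, mem_singleton_iff, mem_univ, iff_true]
    exact Subsingleton.elim _ _
  unfold H
  refine Finset.sum_eq_zero fun v _ => ?_
  rw [h1 v]
  simp

theorem H_mul (hT : MeasurePreserving T μ μ) {E : Set (α × α)} (hE : MeasurableSet E)
    (n j : ℕ) : H (μ.prod μ) (Nm (Prod.map T T) E (j * n)) ≤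
      j * H (μ.prod μ) (Nm (Prod.map T T) E n) := by
  induction j with
  | zero => rw [Nat.zero_mul, H_zero]; simp
  | succ j ih =>
    rw [Nat.succ_mul]
    have h1 := H_add hT hE (j * n) n
    push_cast
    linarith

/-- growth of the entropy of the names -/
theorem growth (hT : MeasurePreserving T μ μ) {E : Set (α × α)}
    (hE : MeasurableSet E) (hFL : FL μ T E) {s δ : ℝ} (m : ℕ)
    (hpair : ∀ K : ℕ, 0 < (μ.prod μ) {z |
      ∑ n ∈ Finset.range K, Dd μ E ((Prod.map T T)^[n] z) ≤ s ∧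
      δ ≤ Dd μ E ((Prod.map T T)^[K + m] z)}) (n : ℕ) :
    n * ((δ - s) * log 2 / (m + 1)) ≤ H (μ.prod μ) (Nm (Prod.map T T) E n) := by
  have a1 : ∀ j : ℕ, j * ((δ - s) * log 2) ≤
      H (μ.prod μ) (Nm (Prod.map T T) E (j * (m + 1))) := by
    intro j
    induction j with
    | zero => simp only [Nat.cast_zero, zero_mul]; exact H_nonneg _ _
    | succ j ih =>
      have h1 := inc hT hE hFL (j * (m + 1)) (j * (m + 1) + m) (by omega) (hpair _)
      rw [Nat.succ_mul, ← add_assoc]
      push_cast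
      linarith
  have h1 := a1 n
  have h2 := H_mul hT hE n (m + 1)
  rw [mul_comm (m + 1) n] at h2
  have hm : (0 : ℝ) < m + 1 := by positivity
  push_cast at h2
  rw [mul_div_assoc', div_le_iff₀ hm]
  linarith

/-- the general principle -/
theorem principle [StandardBorelSpace α] (hT : MeasurePreserving T μ μ) {E : Set (α × α)}
    (hE : MeasurableSet E) (hFL : FL μ T E) {s δ : ℝ} (m : ℕ)
    (hpair : ∀ K : ℕ, 0 < (μ.prod μ) {z |
      ∑ n ∈ Finset.range K, Dd μ E ((Prod.map T T)^[n] z) ≤ s ∧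
      δ ≤ Dd μ E ((Prod.map T T)^[K + m] z)})
    {κ : ℝ} (hκ : κ < (δ - s) * log 2 / (m + 1)) :
    ∃ (k : ℕ) (f : α → Fin k), Measurable f ∧ ∀ n : ℕ, κ * n ≤ H μ (nam T f n) := by
  obtain ⟨k, f, hf, h⟩ := transfer (μ := μ) hT hE hFL (ε := (δ - s) * log 2 / (m + 1) - κ)
    (by linarith)
  refine ⟨k, f, hf, fun n => ?_⟩
  have h1 := growth hT hE hFL m hpair n
  have h2 := h n
  nlinarith

theorem meas_Dd {E : Set (α × α)} (hE : MeasurableSet E) : Measurable (Dd μ E) := by
  have h1 : MeasurableSet {w : (α × α) × α | ((w.1.1, w.2) ∈ E ∧ (w.1.2, w.2) ∉ E) ∨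
      ((w.1.2, w.2) ∈ E ∧ (w.1.1, w.2) ∉ E)} := by
    have h2 : MeasurableSet {w : (α × α) × α | (w.1.1, w.2) ∈ E} :=
      (show Measurable (fun w : (α × α) × α => (w.1.1, w.2)) by fun_prop) hE
    have h3 : MeasurableSet {w : (α × α) × α | (w.1.2, w.2) ∈ E} :=
      (show Measurable (fun w : (α × α) × α => (w.1.2, w.2)) by fun_prop) hE
    exact (h2.inter h3.compl).union (h3.inter h2.compl)
  have h4 := (measurable_measure_prodMk_left (ν := μ) h1).ennreal_toReal
  exact h4

/-- sections along an orbit segment can be close -/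
theorem pos_close [StandardBorelSpace α] {E : Set (α × α)}
    (hE : MeasurableSet E) {δ : ℝ} (hδ : 0 < δ) (N : ℕ) :
    0 < (μ.prod μ) {z | ∀ n < N, Dd μ E ((Prod.map T T)^[n] z) < δ} := by
  obtain ⟨C, p, hC, hp, happ⟩ := approx (μ := μ) hE (half_pos hδ)
  have hcov : ⋃ w : Fin N → ℕ, {x | nam T p N x = w} = univ := by
    ext x; simp
  obtain ⟨w, hw⟩ : ∃ w : Fin N → ℕ, 0 < μ {x | nam T p N x = w} := by
    by_contra h
    push Not at h
    have h1 : μ (⋃ w : Fin N → ℕ, {x | nam T p N x = w}) = 0 :=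
      measure_iUnion_null fun w => nonpos_iff_eq_zero.1 (h w)
    rw [hcov, measure_univ] at h1
    exact one_ne_zero h1
  have h2 : 0 < (μ.prod μ) ({x | nam T p N x = w} ×ˢ {x | nam T p N x = w}) := by
    rw [Measure.prod_prod]
    exact ENNReal.mul_pos hw.ne' hw.ne'
  refine lt_of_lt_of_le h2 (measure_mono ?_)
  rintro ⟨x, x'⟩ ⟨h4, h5⟩ n hn
  have h6 : p (T^[n] x) = p (T^[n] x') := by
    have h7 := congrFun (h4.trans (Eq.symm h5)) ⟨n, hn⟩
    exact h7
  rw [Prod.map_iterate]
  show μ.real (symmDiff (Sec E (T^[n] x)) (Sec E (T^[n] x'))) < δ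
  have a1 := happ (T^[n] x)
  have a2 := happ (T^[n] x')
  rw [← h6] at a2
  have a3 := measureReal_symmDiff_le (μ := μ) (s := Sec E (T^[n] x))
    (t := C (p (T^[n] x))) (Sec E (T^[n] x'))
  rw [symmDiff_comm (C (p (T^[n] x)))] at a3
  linarith

/-- summably expansive sections give asymptotic pairs -/
theorem expansive [StandardBorelSpace α] (hT : MeasurePreserving T μ μ)
    (herg : Ergodic (Prod.map T T) (μ.prod μ)) {E : Set (α × α)} (hE : MeasurableSet E) {δ : ℝ}
    (hδ : 0 < δ) {ε : ℕ → ℝ} (hε0 : ∀ n, 0 ≤ ε n) (hε : Summable ε)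
    (hexp : ∀ᵐ z ∂(μ.prod μ), ∀ n : ℕ,
      (∀ j ≤ 2 * n, Dd μ E ((Prod.map T T)^[j] z) < δ) → Dd μ E ((Prod.map T T)^[n] z) ≤ ε n)
    (hnot : ¬ ∀ᵐ z ∂(μ.prod μ), Dd μ E z = 0) (r K : ℕ) :
    0 < (μ.prod μ) {z |
      ∑ n ∈ Finset.range K, Dd μ E ((Prod.map T T)^[n] z) ≤ 2 * ∑' i, ε (i + r) ∧
      δ ≤ Dd μ E ((Prod.map T T)^[K + r] z)} := by
  by_contra hzero
  apply hnot
  set S := Prod.map T T with hS
  set P := μ.prod μ with hP
  have hSmp : MeasurePreserving S P P := hT.prod hT
  have hr : ∀ K, ∑ n ∈ Finset.range K, ε (n + r) ≤ ∑' i, ε (i + r) := fun K =>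
    ((summable_nat_add_iff r).2 hε).sum_le_tsum _ fun _ _ => hε0 _
  have hK0 : P {z | ∑ n ∈ Finset.range K, Dd μ E (S^[n] z) ≤ 2 * ∑' i, ε (i + r) ∧
      δ ≤ Dd μ E (S^[K + r] z)} = 0 := nonpos_iff_eq_zero.1 (not_lt.1 hzero)
  have hK1 : ∀ᵐ z ∂P, ¬ (∑ n ∈ Finset.range K, Dd μ E (S^[n] z) ≤ 2 * ∑' i, ε (i + r) ∧
      δ ≤ Dd μ E (S^[K + r] z)) := by
    rw [ae_iff]
    simpa using hK0
  have hK2 := (hSmp.iterate r).quasiMeasurePreserving.ae hK1
  have hexp2 : ∀ᵐ z ∂P, ∀ i n : ℕ,
      (∀ j ≤ 2 * n, Dd μ E (S^[j] (S^[i] z)) < δ) → Dd μ E (S^[n] (S^[i] z)) ≤ ε n := by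
    rw [ae_all_iff]
    intro i
    exact (hSmp.iterate i).quasiMeasurePreserving.ae hexp
  set Q := K + 2 * r with hQ
  set R : Set (α × α) := {z | ∀ n < Q, Dd μ E (S^[n] z) < δ} with hR
  have hRm : MeasurableSet R := by
    have : R = ⋂ n ∈ Finset.range Q, (fun z => Dd μ E (S^[n] z)) ⁻¹' (Iio δ) := by
      ext z; simp [hR]
    rw [this]
    exact Finset.measurableSet_biInter _ fun n _ =>
      ((meas_Dd hE).comp (hSmp.measurable.iterate n)) measurableSet_Iio
  -- the next distance is small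
  have hnext : ∀ᵐ z ∂P, z ∈ R → Dd μ E (S^[Q] z) < δ := by
    filter_upwards [hK2, hexp2] with z hz1 hz2 hzR
    by_contra hcon
    refine hz1 ⟨?_, ?_⟩
    · have hterm : ∀ n ∈ Finset.range K, Dd μ E (S^[n] (S^[r] z)) ≤
          ε (n + r) + ε (K - 1 - n + r) := by
        intro n hn
        have hn' := Finset.mem_range.1 hn
        rw [← Function.iterate_add_apply]
        rcases Nat.lt_or_ge (2 * (n + r)) Q with h1 | h1
        · have h2 := hz2 0 (n + r) (fun j hj => hzR j (lt_of_le_of_lt hj h1))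
          have h3 : Dd μ E (S^[n + r] z) ≤ ε (n + r) := h2
          have h5 := hε0 (K - 1 - n + r)
          linarith
        · have h2 := hz2 (n + r - (K - 1 - n + r)) (K - 1 - n + r) (by
            intro j hj
            rw [← Function.iterate_add_apply]
            exact hzR _ (by omega))
          rw [← Function.iterate_add_apply] at h2
          have e2 : K - 1 - n + r + (n + r - (K - 1 - n + r)) = n + r := by omega
          rw [e2] at h2
          have h5 := hε0 (n + r)
          linarith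
      refine (Finset.sum_le_sum hterm).trans ?_
      rw [Finset.sum_add_distrib, Finset.sum_range_reflect (fun n => ε (n + r)) K]
      have := hr K
      linarith
    · rw [← Function.iterate_add_apply]
      have e3 : K + r + r = Q := by omega
      rw [e3]
      exact not_lt.1 hcon
  have hRinv : R ≤ᵐ[P] S ⁻¹' R := by
    filter_upwards [hnext] with z hz hzR
    intro n hn
    have e1 : S^[n] (S z) = S^[n + 1] z := rfl
    rw [e1]
    rcases Nat.lt_or_ge (n + 1) Q with h | h
    · exact hzR (n + 1) h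
    · have hnQ : n + 1 = Q := by omega
      rw [hnQ]
      exact hz hzR
  have hR1 : ∀ᵐ z ∂P, z ∈ R := by
    rcases herg.ae_empty_or_univ_of_ae_le_preimage hRm.nullMeasurableSet hRinv with h | h
    · exfalso
      have h1 : P R = 0 := by rw [measure_congr h, measure_empty]
      exact (pos_close (μ := μ) (T := T) hE hδ Q).ne' h1
    · exact eventuallyEq_univ.1 h
  have h0 : ∀ᵐ z ∂P, Dd μ E (S^[Q] z) < δ := by
    filter_upwards [hR1, hnext] with z a b using b a
  have h1 : ∀ᵐ z ∂P, Dd μ E z < δ := by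
    have h6 : MeasurableSet {z | ¬ Dd μ E z < δ} := by
      have : {z | ¬ Dd μ E z < δ} = (Dd μ E) ⁻¹' (Ici δ) := by ext z; simp
      rw [this]
      exact (meas_Dd hE) measurableSet_Ici
    rw [ae_iff] at h0 ⊢
    rw [← (hSmp.iterate Q).measure_preimage h6.nullMeasurableSet]
    exact h0
  have h2 : ∀ᵐ z ∂P, ∀ j : ℕ, Dd μ E (S^[j] z) < δ := by
    rw [ae_all_iff]
    intro j
    exact (hSmp.iterate j).quasiMeasurePreserving.ae h1
  have h3 : ∀ᵐ z ∂P, ∀ n : ℕ, Dd μ E z ≤ ε n := by
    rw [ae_all_iff]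
    intro n
    have h4 : P (S^[n] ⁻¹' {z | ε n < Dd μ E z}) = 0 := by
      have h5 : ∀ᵐ z ∂P, ¬ ε n < Dd μ E (S^[n] z) := by
        filter_upwards [h2, hexp] with z a b
        exact not_lt.2 (b n fun j _ => a j)
      simpa [ae_iff] using h5
    have h6 : MeasurableSet {z | ε n < Dd μ E z} := measurableSet_lt measurable_const (meas_Dd hE)
    rw [(hSmp.iterate n).measure_preimage h6.nullMeasurableSet] at h4
    rw [ae_iff]
    simpa using h4
  filter_upwards [h3] with z hz
  exact le_antisymm (ge_of_tendsto' hε.tendsto_atTop_zero hz) measureReal_nonneg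

theorem ae_eq_of_Dd {E : Set (α × α)} (hE : MeasurableSet E)
    (h : ∀ᵐ z ∂(μ.prod μ), Dd μ E z = 0) :
    ∃ B, MeasurableSet B ∧ (μ.prod μ) (symmDiff E (univ ×ˢ B)) = 0 := by
  have h1 : ∀ᵐ x' ∂μ, ∀ᵐ x ∂μ, Dd μ E (x', x) = 0 := Measure.ae_ae_of_ae_prod h
  obtain ⟨x₀, hx₀⟩ := h1.exists
  refine ⟨Sec E x₀, meas_sec hE x₀, ?_⟩
  rw [Measure.prod_apply (hE.symmDiff (MeasurableSet.univ.prod (meas_sec hE x₀))),
    lintegral_eq_zero_iff (measurable_measure_prodMk_left
      (hE.symmDiff (MeasurableSet.univ.prod (meas_sec hE x₀))))]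
  filter_upwards [hx₀] with x hx
  have h2 : Prod.mk x ⁻¹' (symmDiff E (univ ×ˢ Sec E x₀)) = symmDiff (Sec E x₀) (Sec E x) := by
    ext y
    simp only [mem_preimage, mem_symmDiff, mem_prod, mem_univ, true_and, Sec, mem_ofPred_eq]
    tauto
  rw [h2]
  have h3 : μ.real (symmDiff (Sec E x₀) (Sec E x)) = 0 := hx
  exact (measureReal_eq_zero_iff).1 h3

end

end Pool.Agent.Work.MP_fa3ce5_an.H9
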